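import Pool.Agent.H174.GP.StG

/-!
# GP part GPP (helper174), helper294: law of the sequence `G (ω j)`
-/

set_option autoImplicit false

open MeasureTheory ProbabilityTheory Finset Filter Topology

namespace Pool.Agent.H294.GP174

open Pool.Agent.H174.GP

theorem gp_gpp : Pool.Agent.H174.GP.S_GPP := by
  intro G hG hmap
  have h1 := Measure.infinitePi_map_pi (ι := ℕ) (X := fun _ => ℝ) (Y := fun _ => ℝ)
    (μ := fun _ : ℕ => lap) (f := fun _ => G) (fun _ => hG)
  unfold PP GA
  rw [h1]
  congr 1
  funext i
  exact hmap

end Pool.Agent.H294.GP174
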